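import Pool.Agent.V11290.UL.Lt

/-!
# A numerical form of the leading-term formula for abelian varieties

Let `A` be an abelian variety of dimension `d` over `ℚ`, with good reduction outside the finite set `S`,
and `L(A, s) = ∏_{p ∉ S} P_p(p^{-s})⁻¹`.  Let `B` be the number predicted for the leading value,
`B = #Ш R V_∞ V_bad / (#A(ℚ)_tors #A'(ℚ)_tors)`, and `r` the rank of `A(ℚ)`.  For an angle `γ > π/2` let

`S_γ(T) = - ∑_{p ∉ S} ∑_{k ≥ 1} (∑_j α_{p,j}^k) p^{-k} e^{iγ k log p / T} / (k Γ(1 + k log p / T))`,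

an absolutely convergent series; `α_{p,j}`, `j = 1, …, 2d`, are the eigenvalues of Frobenius.

Suppose that `L(A, s)` has a continuation along the real axis to `s = 1` that is meromorphic at the real
points of `[1, 3/2]`.  We prove, without any hypothesis on its zeros and poles, with the explicit
constant `Λ_γ`, `m` the order of `L(A, s)` at `1`, `l` the leading value and `κ` the number of the zeros
minus the number of the poles on the real interval `(1, 3/2]`:

`S_γ(T) = m (log T - Λ_γ) - log |l| + iπκ + O(1/T)`;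

and `(s - 1)^{-r} L(A, s)` tends to `B` for `s → 1` (the leading-term formula of the conjecture) if and
only if `exp (S_γ(T)) T^{-r}` tends to `exp (- r Λ_γ) / B` for `T → ∞`.

The tools (rotated Mittag-Leffler sums) were developed for elliptic curves by the helpers 187, 189, 338,
351, 392 of an earlier round.
-/

set_option autoImplicit false

namespace Pool.Agent.Results.MP_dfae13_nt.NumericalForm

open Filter Topology Polynomial Set

variable {n : ℕ}

/-- The set `V` of homogeneous polynomials over a ring `R` in `n` variables defines a projective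
scheme over `R`.  For a field `κ` with `q` elements and a homomorphism `R → κ` this is `(q - 1)`
times the number of the points of `V` with coordinates in `κ`: the number of the nonzero solutions
of the equations. -/
noncomputable def cone {R : Type} [CommRing R] (V : Set (MvPolynomial (Fin n) R)) {κ : Type}
    [Field κ] (φ : R →+* κ) : ℕ :=
  Nat.card {u : Fin n → κ // u ≠ 0 ∧ ∀ f ∈ V, MvPolynomial.eval₂ φ u f = 0}

/-- `A` is an abelian variety of dimension `d` over `ℚ` with good reduction at the prime `p`, and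
`α_1, …, α_{2d}` are the eigenvalues of the geometric Frobenius at `p` on `H^1`: complex numbers of
absolute value `√p` such that `P_p = ∏ (1 - α_j X)` has integral coefficients and the number of the
points of `A` over the field with `p^e` elements is `∏ (1 - α_j ^ e)` (Weil). -/
def IsFrobenius (A : Set (MvPolynomial (Fin n) ℤ)) (d p : ℕ) (α : Fin (2 * d) → ℂ) : Prop :=
  (∀ j, ‖α j‖ = √p) ∧ (∃ P : ℤ[X], ∀ z : ℂ, aeval z P = ∏ j, (1 - α j * z)) ∧
  ∀ (κ : Type) [Field κ] [Finite κ] (φ : ℤ →+* κ) (e : ℕ), Nat.card κ = p ^ e →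
    (cone A φ : ℂ) = ((p : ℂ) ^ e - 1) * ∏ j, (1 - α j ^ e)

/-- `L` is a continuation of `L(A, s) = ∏_{p ∉ S} ∏_j (1 - α_{p,j} p^{-s})⁻¹` along the real axis to
`s = 1`. -/
def IsContinuation {d : ℕ} (S : Finset ℕ) (α : ℕ → Fin (2 * d) → ℂ) (L : ℂ → ℂ) : Prop :=
  (∀ x : ℝ, 1 ≤ x → x ≤ 3 / 2 → MeromorphicAt L (x : ℂ)) ∧
  ∀ s : ℂ, 3 / 2 < s.re → HasProd
    (fun p : {p : ℕ // p.Prime ∧ p ∉ S} => ∏ j, (1 - α p.1 j * (p.1 : ℂ) ^ (-s))⁻¹) (L s)

/-- The term of `S_γ(T)` at the prime power `p^k`, `k = i + 1`. -/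
noncomputable def term {d : ℕ} (α : ℕ → Fin (2 * d) → ℂ) (γ T : ℝ) (p i : ℕ) : ℂ :=
  -(∑ j, α p j ^ (i + 1)) * Complex.exp (γ * ((i + 1) * Real.log p / T) * Complex.I) /
    ((i + 1) * (p : ℂ) ^ (i + 1) * Real.Gamma (1 + (i + 1) * Real.log p / T))

/-- `S_γ(T)`, the sum over the primes `p ∉ S` and `k ≥ 1`. -/
noncomputable def rotatedSum {d : ℕ} (S : Finset ℕ) (α : ℕ → Fin (2 * d) → ℂ) (γ T : ℝ) : ℂ :=
  ∑' x : {p : ℕ // p.Prime ∧ p ∉ S} × ℕ, term α γ T x.1.1 x.2

/-- The number of the zeros minus the number of the poles of `L` on the real interval `(1, 3/2]`, with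
multiplicities. -/
noncomputable def excess (L : ℂ → ℂ) : ℤ :=
  ∑ᶠ x ∈ Ioc (1 : ℝ) (3 / 2), (meromorphicOrderAt L (x : ℂ)).untop₀

/-- `Λ_γ = ∫_0^∞ (e^{-t} - e^{iγt} / Γ(1 + t)) dt / t`. -/
noncomputable def Lam (γ : ℝ) : ℂ := ∫ t in Ioi (0 : ℝ),
  (Complex.exp (-(t : ℂ)) - Complex.exp ((γ * t : ℝ) * Complex.I) * ((Real.Gamma (1 + t))⁻¹ : ℝ)) / t

/-- **A numerical form of the leading-term formula for abelian varieties.** -/
theorem result (A : Set (MvPolynomial (Fin n) ℤ)) (d : ℕ) (S : Finset ℕ)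
    (α : ℕ → Fin (2 * d) → ℂ) (hα : ∀ p : ℕ, p.Prime → p ∉ S → IsFrobenius A d p (α p))
    (L : ℂ → ℂ) (hL : IsContinuation S α L) (γ : ℝ) (hγ : Real.pi / 2 < γ) :
    (∀ T : ℝ, 0 < T → Summable fun x : {p : ℕ // p.Prime ∧ p ∉ S} × ℕ =>
      ‖term α γ T x.1.1 x.2‖) ∧
    (∃ (m : ℤ) (l : ℝ), l ≠ 0 ∧ meromorphicOrderAt L 1 = m ∧
      Tendsto (fun s : ℂ => L s / (s - 1) ^ m) (𝓝[≠] 1) (𝓝 l) ∧
      (fun T : ℝ => rotatedSum S α γ T - (m * (Real.log T - Lam γ) - Real.log |l| +
        Real.pi * excess L * Complex.I)) =O[atTop] (fun T : ℝ => 1 / T)) ∧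
    ∀ (r : ℕ) (B : ℝ), B ≠ 0 →
      (Tendsto (fun s : ℂ => L s / (s - 1) ^ r) (𝓝[≠] 1) (𝓝 B) ↔
        Tendsto (fun T : ℝ => Complex.exp (rotatedSum S α γ T) / (T : ℂ) ^ r) atTop
          (𝓝 (Complex.exp (-(r * Lam γ)) / B))) := by
  have F : Pool.Agent.V11290.UL.FamA (P := {p : ℕ // p.Prime ∧ p ∉ S}) (N := 2 * d) 1 1
      (fun p => (p.1 : ℝ)) (fun p => α p.1) := by
    refine ⟨le_rfl, fun p => by exact_mod_cast p.2.1.two_le, fun σ hσ => ?_, fun p j => ?_,
      fun p k => ?_⟩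
    · have h1 : Summable fun p : Nat.Primes => (p : ℝ) ^ (-σ) :=
        Nat.Primes.summable_rpow.2 (by linarith)
      exact h1.comp_injective (i := fun p : {p : ℕ // p.Prime ∧ p ∉ S} =>
        (⟨p.1, p.2.1⟩ : Nat.Primes)) (fun a b h => Subtype.ext
          (congrArg (fun z : Nat.Primes => (z : ℕ)) h))
    · have h1 := (hα p.1 p.2.1 p.2.2).1 j
      rw [h1, Real.sqrt_eq_rpow]
      norm_num
    · obtain ⟨Q, hQ⟩ := (hα p.1 p.2.1 p.2.2).2.1
      have h1 : ∀ z : ℂ, ∏ j, (1 - α p.1 j * z) =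
          ∏ j, (1 - (starRingEnd ℂ) (α p.1 j) * z) := by
        intro z
        have h3 := hQ ((starRingEnd ℂ) z)
        have h4 : aeval ((starRingEnd ℂ) z) Q = (starRingEnd ℂ) (aeval z Q) := by
          simp only [aeval_def, eval₂_eq_sum_range, map_sum, map_mul, map_pow]
          refine Finset.sum_congr rfl fun i _ => ?_
          simp
        rw [← hQ]
        have h5 := congrArg (starRingEnd ℂ) h4
        rw [Complex.conj_conj] at h5
        rw [← h5, h3, map_prod]
        refine Finset.prod_congr rfl fun j _ => ?_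
        simp
      have h2 := Pool.Agent.V11290.UL.psum_eq_of_prod _ _ h1 k
      have h4 : (starRingEnd ℂ) (∑ j, α p.1 j ^ k) = ∑ j, α p.1 j ^ k := by
        rw [map_sum]
        simp only [map_pow]
        exact h2.symm
      exact Complex.conj_eq_iff_im.1 h4
  have h32 : (1 : ℝ) + 1 / 2 = 3 / 2 := by norm_num
  have hterm : ∀ (T : ℝ) (x : {p : ℕ // p.Prime ∧ p ∉ S} × ℕ), term α γ T x.1.1 x.2 =
      Pool.Agent.V11290.UL.pterm 1 (fun p : {p : ℕ // p.Prime ∧ p ∉ S} => (p.1 : ℝ))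
        (fun p => α p.1) γ T x := by
    intro T x
    unfold term Pool.Agent.V11290.UL.pterm
    simp only [Real.rpow_one, Complex.ofReal_natCast]
  have hsum : ∀ T : ℝ, rotatedSum S α γ T = ∑' x,
      Pool.Agent.V11290.UL.pterm 1 (fun p : {p : ℕ // p.Prime ∧ p ∉ S} => (p.1 : ℝ))
        (fun p => α p.1) γ T x := fun T => tsum_congr (hterm T)
  obtain ⟨⟨m, l, h1, h2, h3, h4⟩, h5⟩ := F.main (L := L)
    (fun x hx => hL.1 x hx.1 (by linarith [hx.2]))
    (fun s hs => by
      have := hL.2 s (by linarith)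
      simpa using this) hγ
  rw [Complex.ofReal_one] at h2 h3 h5
  refine ⟨fun T hT => ?_, ⟨m, l, h1, h2, h3, ?_⟩, fun r B hB => ?_⟩
  · simp only [hterm]
    exact F.summable γ hT
  · refine h4.congr_left fun T => ?_
    rw [hsum, h32]
    rfl
  · rw [h5 r B hB]
    simp only [hsum]
    rfl

end Pool.Agent.Results.MP_dfae13_nt.NumericalForm
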