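import Pool.Agent.V11333.Cone5
import Pool.Agent.V11333.PsumProd

/-!
# The leading term of abelian varieties and one-sided bounds of Euler products

Let `A` be an abelian variety of dimension `g` over a number field `K` (in the problem: `K = ℚ`), let `S` be
a set of primes of `K` at which `A` has good reduction (in the problem: all primes outside a finite set),
`P_v = ∏_{j ≤ 2g} (1 - α_{v,j} X)` the local polynomials and

`L(A, s) = ∏_{v ∈ S} P_v(q_v^{-s})⁻¹`, `Re s > 3/2`.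

For the traces `t_k(v) = ∑_j α_{v,j}^k` of the powers of Frobenius and `ρ > 1` let

`S_ρ(Y) = ∑_{v ∈ S, k ≥ 1} w_ρ(k log q_v / log Y) t_k(v) / (k q_v^k)`,
`w_ρ(u) = (1/2πi) ∫ exp(z - u z^{1/ρ}) dz/z`,

where `q_v^k ≤ exp ((log Y)^{ρ'})` (any `ρ' > ρ`): the smoothed logarithm of the Euler product at `s = 1`.
Let `r` be a natural number and `B > 0` (in the conjecture: the rank of `A(K)` and the predicted number
`#Ш R V_∞ V_bad / (#A(ℚ)_tors #A'(ℚ)_tors)`). It is shown that for every `ρ₀ ≥ 1` the following are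
EQUIVALENT:

* `L(A, s)` has a holomorphic continuation WITHOUT ZEROS to the union of the half plane `Re s > 3/2` and
  the sector `|arg (s - 1)| < π/(2ρ₀)`, with `L(A, s)/(s - 1)^r → B` for `s → 1` in the smaller sectors;
* `L(A, s)` is analytic at all REAL `s > 1` (after a continuation along the real axis; zeros are
  allowed), `L(A, s)/(s - 1)^r → B` for real `s → 1`, and `S_ρ(Y) + r log log Y` is bounded BELOW for all
  `ρ > ρ₀`;
* `1/L(A, s)` is analytic at all real `s > 1`, `(s - 1)^r/L(A, s) → 1/B` for real `s → 1`, and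
  `S_ρ(Y) + r log log Y` is bounded ABOVE for all `ρ > ρ₀`;
* `S_ρ(Y) + r log log Y → log B - r γ/ρ` for all `ρ > ρ₀`.

For `ρ₀ = 1` the sector is the half plane `Re s > 1`. So the leading-term formula on the real axis and a
ONE-SIDED bound of the Euler products at `s = 1` give the continuation to `Re s > 1`, the Riemann
hypothesis there and the asymptotic formula for the smoothed Euler products.
-/

set_option autoImplicit false

namespace Pool.Agent.Results.MP_dfae13_nt.OneSidedLeadingTerm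

open Filter Topology Set NumberField IsDedekindDomain Polynomial

variable {K : Type} [Field K] [NumberField K] {n g : ℕ}

/-- The norm `q_v`. -/
noncomputable def nrm (v : HeightOneSpectrum (𝓞 K)) : ℕ := Ideal.absNorm v.asIdeal

/-- The set `A` of homogeneous polynomials over `𝓞_K` in `n` variables gives a projective variety over
`K`.  For a field `κ` with `q` elements and a homomorphism `𝓞_K → κ` this is `(q - 1)` times the number
of the points of `A` with coordinates in `κ`: the number of the nonzero solutions of the equations. -/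
noncomputable def cone (A : Set (MvPolynomial (Fin n) (𝓞 K))) {κ : Type} [Field κ]
    (φ : 𝓞 K →+* κ) : ℕ :=
  Nat.card {u : Fin n → κ // u ≠ 0 ∧ ∀ f ∈ A, MvPolynomial.eval₂ φ u f = 0}

/-- `A` is an abelian variety of dimension `g` over `K` with good reduction at the prime `v`, and
`α_1, …, α_{2g}` are the eigenvalues of the geometric Frobenius at `v` on `H^1`: complex numbers of
absolute value `√q_v` such that `P_v = ∏ (1 - α_j X)` has integral coefficients and the number of the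
points of `A` over the extension of degree `e` of the residue field is `∏ (1 - α_j ^ e)` (Weil). -/
def IsFrobenius (A : Set (MvPolynomial (Fin n) (𝓞 K))) (v : HeightOneSpectrum (𝓞 K))
    (α : Fin (2 * g) → ℂ) : Prop :=
  (∀ j, ‖α j‖ = √(nrm v)) ∧ (∃ P : ℤ[X], ∀ z : ℂ, aeval z P = ∏ j, (1 - α j * z)) ∧
  ∀ (κ : Type) [Field κ] [Finite κ] (φ : 𝓞 K →+* κ) (e : ℕ), RingHom.ker φ = v.asIdeal →
    Nat.card κ = nrm v ^ e → (cone A φ : ℂ) = ((nrm v : ℂ) ^ e - 1) * ∏ j, (1 - α j ^ e)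

variable {S : Set (HeightOneSpectrum (𝓞 K))}

/-- The Euler factor `P_v(q_v^{-s})⁻¹ = ∏_j (1 - α_{v,j} q_v^{-s})⁻¹`. -/
noncomputable def factor (α : S → Fin (2 * g) → ℂ) (v : S) (s : ℂ) : ℂ :=
  ∏ j, (1 - α v j * (nrm v.1 : ℂ) ^ (-s))⁻¹

/-- The open sector `|arg (s - 1)| < π/(2ρ)` with vertex `1`. -/
def Sector (ρ : ℝ) : Set ℂ := {s | s ≠ 1 ∧ |(s - 1).arg| < Real.pi / (2 * ρ)}

/-- `L(A, s)` has a holomorphic continuation `G` without zeros to the union of the sector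
`|arg (s - 1)| < π/(2ρ₀)` and the half plane `Re s > 3/2`, and `G(s)/(s - 1)^r → B` for `s → 1` in the
sectors `|arg (s - 1)| < π/(2ρ)`, `ρ > ρ₀`. -/
def Continues (α : S → Fin (2 * g) → ℂ) (ρ₀ : ℝ) (r : ℕ) (B : ℝ) : Prop :=
  ∃ G : ℂ → ℂ, (∀ s : ℂ, s ∈ Sector ρ₀ ∨ 3 / 2 < s.re → DifferentiableAt ℂ G s ∧ G s ≠ 0) ∧
    (∀ s : ℂ, 3 / 2 < s.re → HasProd (fun v : S => factor α v s) (G s)) ∧
    ∀ ρ : ℝ, ρ₀ < ρ → Tendsto (fun s : ℂ => G s / (s - 1) ^ r) (𝓝[Sector ρ] 1) (𝓝 (B : ℂ))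

/-- `L(A, s)` has a continuation `F` which is analytic at all real `x > 1`, with `F(x)/(x - 1)^r → B`
for real `x → 1`, `x > 1`. -/
def RealContinues (α : S → Fin (2 * g) → ℂ) (r : ℕ) (B : ℝ) : Prop :=
  ∃ F : ℂ → ℂ, (∀ x : ℝ, 1 < x → AnalyticAt ℂ F x) ∧
    (∀ x : ℝ, 3 / 2 < x → HasProd (fun v : S => factor α v x) (F x)) ∧
    Tendsto (fun x : ℝ => F x / ((x : ℂ) - 1) ^ r) (𝓝[>] 1) (𝓝 (B : ℂ))

/-- `1/L(A, s)` has a continuation `F` which is analytic at all real `x > 1`, with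
`F(x) (x - 1)^r → 1/B` for real `x → 1`, `x > 1`. -/
def RealContinuesInv (α : S → Fin (2 * g) → ℂ) (r : ℕ) (B : ℝ) : Prop :=
  ∃ F : ℂ → ℂ, (∀ x : ℝ, 1 < x → AnalyticAt ℂ F x) ∧
    (∀ x : ℝ, 3 / 2 < x → HasProd (fun v : S => factor α v x) (F x)⁻¹) ∧
    Tendsto (fun x : ℝ => F x * ((x : ℂ) - 1) ^ r) (𝓝[>] 1) (𝓝 ((B : ℂ)⁻¹))

/-- The weight `w_ρ(u) = (1/2πi) ∫_{Re z = 1} exp(z - u z^{1/ρ}) dz/z`. -/
noncomputable def weight (ρ u : ℝ) : ℝ :=
  (2 * Real.pi)⁻¹ * ∫ t : ℝ, (Complex.exp ((1 + t * Complex.I) -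
    u * (1 + t * Complex.I) ^ ((ρ⁻¹ : ℝ) : ℂ)) / (1 + t * Complex.I)).re

/-- `S_ρ(Y)`: the sum of `w_ρ(k log q_v / log Y) t_k(v) / (k q_v^k)` over the primes `v ∈ S` and the
`k ≥ 1` (here `k = p.2 + 1`) with `q_v^k ≤ exp ((log Y)^{ρ'})`; `t_k(v) = ∑_j α_{v,j}^k` is the trace of
the `k`-th power of Frobenius, a real number. -/
noncomputable def mean (α : S → Fin (2 * g) → ℂ) (ρ ρ' Y : ℝ) : ℝ :=
  ∑ᶠ (p : S × ℕ) (_ : (nrm p.1.1 : ℝ) ^ (p.2 + 1) ≤ Real.exp (Real.log Y ^ ρ')),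
    weight ρ (((p.2 : ℝ) + 1) * Real.log (nrm p.1.1) / Real.log Y) *
      ((∑ j, α p.1 j ^ (p.2 + 1)).re / (((p.2 : ℝ) + 1) * (nrm p.1.1 : ℝ) ^ (p.2 + 1)))

/-- `S_ρ(Y) + r log log Y` is bounded below for `Y → ∞`, for all `ρ' > ρ > ρ₀`. -/
def Lower (α : S → Fin (2 * g) → ℂ) (ρ₀ : ℝ) (r : ℕ) : Prop :=
  ∀ ρ ρ' : ℝ, ρ₀ < ρ → ρ < ρ' → ∃ C : ℝ, ∀ᶠ Y : ℝ in atTop,
    -C ≤ mean α ρ ρ' Y + r * Real.log (Real.log Y)

/-- `S_ρ(Y) + r log log Y` is bounded above for `Y → ∞`, for all `ρ' > ρ > ρ₀`. -/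
def Upper (α : S → Fin (2 * g) → ℂ) (ρ₀ : ℝ) (r : ℕ) : Prop :=
  ∀ ρ ρ' : ℝ, ρ₀ < ρ → ρ < ρ' → ∃ C : ℝ, ∀ᶠ Y : ℝ in atTop,
    mean α ρ ρ' Y + r * Real.log (Real.log Y) ≤ C

/-- `S_ρ(Y) + r log log Y → log B - r γ/ρ` for `Y → ∞`, for all `ρ' > ρ > ρ₀`. -/
def Limits (α : S → Fin (2 * g) → ℂ) (ρ₀ : ℝ) (r : ℕ) (B : ℝ) : Prop :=
  ∀ ρ ρ' : ℝ, ρ₀ < ρ → ρ < ρ' →
    Tendsto (fun Y : ℝ => mean α ρ ρ' Y + r * Real.log (Real.log Y)) atTop
      (𝓝 (Real.log B - r * Real.eulerMascheroniConstant / ρ))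

open Pool.Agent.V11333
open Pool.Agent.H921R2.TatePole (nm)

/-- The eigenvalues of Frobenius are a pure system. -/
theorem pure {A : Set (MvPolynomial (Fin n) (𝓞 K))} {α : S → Fin (2 * g) → ℂ}
    (h : ∀ v, IsFrobenius A v.1 (α v)) : PR.Pure (1 / 2) α :=
  ⟨fun v j => by
    rw [(h v).1 j, ← Real.sqrt_eq_rpow]
    exact le_rfl, fun v k => PP.psum_real (α v) (h v).2.1 k⟩

theorem sector_eq (ρ : ℝ) : CP.Sector 1 ρ = Sector ρ := by
  unfold CP.Sector Sector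
  rw [Complex.ofReal_one]

theorem mean_eq (α : S → Fin (2 * g) → ℂ) (ρ ρ' Y : ℝ) : CP.mean 1 α ρ ρ' Y = mean α ρ ρ' Y := by
  unfold CP.mean mean
  refine finsum_congr fun p => finsum_congr fun _ => ?_
  rw [Real.rpow_one]
  rfl

theorem cont_iff (α : S → Fin (2 * g) → ℂ) (ρ₀ : ℝ) (r : ℕ) (B : ℝ) :
    CP.Continues 1 (3 / 2) α ρ₀ r B ↔ Continues α ρ₀ r B := by
  unfold CP.Continues Continues
  simp only [sector_eq, Complex.ofReal_one]
  rfl

theorem real_iff (α : S → Fin (2 * g) → ℂ) (r : ℕ) (B : ℝ) :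
    CP.RealContinues 1 (3 / 2) α r B ↔ RealContinues α r B := by
  unfold CP.RealContinues RealContinues
  simp only [Complex.ofReal_one, Complex.ofReal_sub]
  rfl

theorem inv_iff (α : S → Fin (2 * g) → ℂ) (r : ℕ) (B : ℝ) :
    CP.RealContinuesInv 1 (3 / 2) α r B ↔ RealContinuesInv α r B := by
  unfold CP.RealContinuesInv RealContinuesInv
  simp only [Complex.ofReal_one, Complex.ofReal_sub]
  rfl

/-- **Theorem.** Let `A` be an abelian variety of dimension `g` over a number field `K`, `S` a set of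
primes of good reduction, `α_{v,j}` the eigenvalues of Frobenius at the `v ∈ S`, `r` a natural number,
`B > 0` and `ρ₀ ≥ 1`. The following are equivalent:

(1) `L(A, s)` has a holomorphic continuation without zeros to the union of `Re s > 3/2` and the sector
`|arg (s - 1)| < π/(2ρ₀)`, with `L(A, s)/(s - 1)^r → B` for `s → 1` in the sectors
`|arg (s - 1)| < π/(2ρ)`, `ρ > ρ₀`;

(2) `L(A, s)` is analytic along the real axis for `s > 1`, with `L(A, x)/(x - 1)^r → B` for real `x → 1`,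
and `S_ρ(Y) + r log log Y` is bounded below for all `ρ' > ρ > ρ₀`;

(3) `1/L(A, s)` is analytic along the real axis for `s > 1`, with `(x - 1)^r/L(A, x) → 1/B` for real
`x → 1`, and `S_ρ(Y) + r log log Y` is bounded above for all `ρ' > ρ > ρ₀`;

(4) `S_ρ(Y) + r log log Y → log B - r γ/ρ` for all `ρ' > ρ > ρ₀`.

For `ρ₀ = 1` the sector is the half plane `Re s > 1`. -/
theorem result (A : Set (MvPolynomial (Fin n) (𝓞 K))) (α : S → Fin (2 * g) → ℂ)
    (h : ∀ v, IsFrobenius A v.1 (α v)) (r : ℕ) (B : ℝ) (hB : 0 < B) (ρ₀ : ℝ) (hρ₀ : 1 ≤ ρ₀) :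
    (Continues α ρ₀ r B ↔ RealContinues α r B ∧ Lower α ρ₀ r) ∧
    (Continues α ρ₀ r B ↔ RealContinuesInv α r B ∧ Upper α ρ₀ r) ∧
    (Continues α ρ₀ r B ↔ Limits α ρ₀ r B) ∧
    Sector 1 = {s : ℂ | 1 < s.re} := by
  obtain ⟨h1, h2, h3⟩ := CP.main (pure h) (c := 1) (σ := 3 / 2) (by norm_num) (by norm_num)
    hρ₀ r hB
  have k0 : CP.Limits 1 α ρ₀ r B ↔ Limits α ρ₀ r B := by
    unfold CP.Limits Limits
    simp only [mean_eq]
  have k1 : CP.Lower 1 α ρ₀ r ↔ Lower α ρ₀ r := by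
    unfold CP.Lower Lower
    simp only [mean_eq]
  have k2 : CP.Upper 1 α ρ₀ r ↔ Upper α ρ₀ r := by
    unfold CP.Upper Upper
    simp only [mean_eq]
  rw [k0, cont_iff] at h1
  rw [k0, real_iff, k1] at h2
  rw [k0, inv_iff, k2] at h3
  refine ⟨h1.symm.trans h2, h1.symm.trans h3, h1.symm, ?_⟩
  ext s
  rw [← sector_eq, CP.sector_shift, Pool.Agent.TH942.ES.sect_one]
  simp only [Set.mem_ofPred_eq, Complex.sub_re, Complex.ofReal_re, sub_pos]

end Pool.Agent.Results.MP_dfae13_nt.OneSidedLeadingTerm
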