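import Pool.Agent.V1176.SQ.Eis

/-!
# The 3-part of the Birch and Swinnerton-Dyer formula for CM abelian varieties of large dimension, in
# sparse sequences of norms

The data, the family, the connected members and the property `BSDThree` are those of the file
`ThreePartTwistsProportion` of this problem: `K = ℚ(ω)`, `E : y² + y = x³`, `k ≥ 2`, and a member of the
family consists of primes `π 1, …, π m` of `ℤ[ω]` with characters of exact order `3 ^ k` modulo `π j`; the
abelian variety `A` over `K`, of dimension `3 ^ (k - 1)`, is the twist of `E ⊗ ℤ[ζ]` by the product of the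
characters, and `BSDThree` is the statement on the `L`-values, on `A(K)` and on `Ш(A / K)`.

That file gives the proportion of the connected members, all of which satisfy `BSDThree`, among all the
members with `N(π 1 ⋯ π m) ≤ X`. Here only the members with a norm in a sequence of density zero are
considered: let `c > 1` be a real number and `S_0, S_1, …` sets of primes. There is a set `E` of real
numbers of Hausdorff dimension less than `1` such that for all `α > 0` outside `E`, all `i`, all `k ≥ 2` and
all `m ≥ 1`: if `S_i` is dense, then there are at least `κ N / log N` members with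
`N(π 1 ⋯ π m) = ⌊α n ^ c⌋`, `n ≤ N`, and all `π j` in `S_i`; the proportion of the connected ones tends to
`∏_{i < m / 2} (1 - 3 ^ (-2 i - 1))`, and at least this proportion of them satisfies `BSDThree`.
-/

set_option autoImplicit false

open scoped Classical
open Filter Topology Pool.Agent.Y715.T.St

namespace Pool.Agent.Results.MP_dfae13_nt.SparseSequences

open Pool.Agent.Results.MP_dfae13_nt.ThreePartTwistsProportion (Datum InFamily IsConnected BSDThree
  IsDense)

/-- the number of the pairs `(n, x)`: `1 ≤ n ≤ N`, and `x` is a datum with the property `P` and with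
`N(π 1 ⋯ π m) = ⌊α n ^ c⌋` -/
noncomputable def along (α c : ℝ) {m : ℕ} (P : Datum m → Prop) (N : ℕ) : ℕ :=
  ∑ n ∈ Finset.Icc 1 N, Nat.card {x : Datum m // P x ∧ ∏ j, nrm (x.1 j) = (⌊α * (n : ℝ) ^ c⌋₊ : ℤ)}

/-- **The 3-part of the Birch and Swinnerton-Dyer formula in sparse sequences.** -/
theorem result (c : ℝ) (hc : 1 < c) (S : ℕ → Set Eis) :
    ∃ E : Set ℝ, dimH E < 1 ∧ ∀ α : ℝ, 0 < α → α ∉ E → ∀ i k m : ℕ, 2 ≤ k → 1 ≤ m →
      IsDense k (S i) →
      -- the number of the members
      (∃ (κ : ℝ) (N₀ : ℕ), 0 < κ ∧ ∀ N : ℕ, N₀ ≤ N →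
        κ * N / Real.log N ≤ (along α c (m := m) (InFamily (S i) k) N : ℝ)) ∧
      -- the proportion of the connected ones
      Tendsto (fun N : ℕ =>
        (along α c (m := m) (fun x => InFamily (S i) k x ∧ IsConnected k x) N : ℝ) /
        (along α c (m := m) (InFamily (S i) k) N : ℝ)) atTop
        (𝓝 (∏ i ∈ Finset.range (m / 2), (1 - 1 / 3 ^ (2 * i + 1) : ℝ))) ∧
      -- the proportion of the good ones is at least this
      ∀ ε : ℝ, 0 < ε → ∃ N₀ : ℕ, ∀ N : ℕ, N₀ ≤ N →
        (∏ i ∈ Finset.range (m / 2), (1 - 1 / 3 ^ (2 * i + 1) : ℝ) - ε) *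
          (along α c (m := m) (InFamily (S i) k) N : ℝ) ≤
          (along α c (m := m) (fun x => InFamily (S i) k x ∧ BSDThree k x) N : ℝ) := by
  obtain ⟨E, hE, h⟩ := Pool.Agent.V1176.SQ.eis c hc S
  refine ⟨E, hE, fun α hα hαE i k m hk hm hD => ?_⟩
  obtain ⟨h1, h2, h3⟩ := h α hα hαE i k m hk hm hD
  refine ⟨h1, h2, h3 (BSDThree k) ?_⟩
  exact (Pool.Agent.Results.MP_dfae13_nt.ThreePartTwistsProportion.result k m hk hm).1

end Pool.Agent.Results.MP_dfae13_nt.SparseSequences
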