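import Pool.Agent.Y715.T.St
import Pool.Agent.V11291.EK.Gdi

/-!
# How often the 3-part of the Birch and Swinnerton-Dyer formula is proved for CM abelian varieties

`K = ℚ(ω)`, `E : y² + y = x³`, `k ≥ 2`. A member of the family is given by primes
`π 1, …, π m` of `ℤ[ω]`, congruent to `1` modulo `3`, whose norms are distinct prime numbers
congruent to `1` modulo `3 ^ (k + 1)`, and by characters `lam j` of exact order `3 ^ k` modulo
`π j`. The characters `lam j ^ 3 ^ (k - 1)` are the powers with exponents `e j` of the cubic residue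
symbols, and `∏ π j ^ e j` must not be `1` modulo `9`. The abelian variety `A` over `K`, of
dimension `3 ^ (k - 1)`, is the twist of `E ⊗ ℤ[ζ]` by `χ = ∏ lam j`, and `B` is its restriction
of scalars to `ℚ`. `BSDThree` is the statement on the `L`-values, on `A(K) = B(ℚ)` and on
`Ш(A / K) = Ш(B / ℚ)` of the theorem `ThreePartTwists`.

The members are ordered by `N(π 1 ⋯ π m)`. There are `≍ X (log log X) ^ (m - 1) / log X` of them
up to `X`; the proportion of the connected ones tends to `∏_{i < m / 2} (1 - 3 ^ (-2 i - 1))`; and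
all connected members satisfy `BSDThree`. The same holds if the `π j` are taken from any dense set.
-/

set_option autoImplicit false

open scoped Classical
open Filter Topology Pool.Agent.Y715.T.St

namespace Pool.Agent.Results.MP_dfae13_nt.ThreePartTwistsProportion

/-- `m` Eisenstein integers, and a complex character modulo each of them. -/
abbrev Datum (m : ℕ) : Type := Σ π : Fin m → Eis, ∀ j, MulChar (Eis ⧸ Ideal.span {π j}) ℂ

/-- `π` is a prime, `1` modulo `3`, and its norm is a prime number, `1` modulo `3 ^ (k + 1)`. -/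
def IsSplitPrime (k : ℕ) (π : Eis) : Prop :=
  Prime π ∧ (3 : Eis) ∣ π - 1 ∧ (nrm π).natAbs.Prime ∧ (3 : ℤ) ^ (k + 1) ∣ nrm π - 1

/-- `lam j ^ 3 ^ (k - 1)` is the `e j`-th power of the cubic residue symbol modulo `π j`. -/
def HasType (k : ℕ) {m : ℕ} (x : Datum m) (e : Fin m → ZMod 3) : Prop :=
  ∀ j (y : Eis) (c : ℕ), x.1 j ∣ y ^ (((nrm (x.1 j)).natAbs - 1) / 3) - ⟨0, 1⟩ ^ c →
    x.2 j (Ideal.Quotient.mk _ y) ^ 3 ^ (k - 1) = omega ^ (c * (e j).val)

/-- The members of the family, with all `π j` in `S`. -/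
structure InFamily (S : Set Eis) (k : ℕ) {m : ℕ} (x : Datum m) : Prop where
  prime : ∀ j, IsSplitPrime k (x.1 j) ∧ x.1 j ∈ S
  distinct : Function.Injective fun j => nrm (x.1 j)
  order : ∀ j, orderOf (x.2 j) = 3 ^ k
  nine : ∀ e, HasType k x e → ¬ (9 : Eis) ∣ ∏ j, x.1 j ^ (e j).val - 1

/-- The member is connected: only for the constant functions `v` from the indices to `ℤ / 3` the
element `∏ π i ^ (e i (v i - v j))` is a cube modulo `π j` for all `j`. -/
def IsConnected (k : ℕ) {m : ℕ} (x : Datum m) : Prop :=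
  ∀ e v : Fin m → ZMod 3, HasType k x e →
    (∀ j, ∃ y, x.1 j ∣ ∏ i, x.1 i ^ (e i * (v i - v j)).val - y ^ 3) → ∀ i j, v i = v j

/-- The statements on `L`-values, points and `Ш` of `ThreePartTwists`: the `L`-functions of
`ψ χ ^ t`, `t` prime to `3`, are entire with value `Ω (1 - ζ) ^ (m - 1)` at `1` up to units above
`3`, the value of `L(B, s)` at `1` is `Ω ^ (2 * 3 ^ (k - 1)) 3 ^ (m - 1)` up to such a unit,
`A(K)` has order `3`, and the `3`-primary part of `Ш(A / K)` is zero. -/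
def BSDThree (k : ℕ) {m : ℕ} (x : Datum m) : Prop :=
  ∀ ζ : ℂ, ζ ^ 3 ^ (k - 1) = omega →
    (∃ F : ℕ → ℂ → ℂ, (∀ t, ¬ 3 ∣ t → IsLFunction x.2 t (F t)) ∧
      (∀ t, ¬ 3 ∣ t → ∃ u, ThreeUnit u ∧ F t 1 = Omega * (1 - ζ) ^ (m - 1) * u) ∧
      ∃ u, ThreeUnit u ∧ LA k F 1 = (Omega : ℂ) ^ (2 * 3 ^ (k - 1)) * 3 ^ (m - 1) * u) ∧
    ∀ (i₀ : QBar), i₀ ^ 2 + i₀ + 1 = 0 → ∀ a : GalK i₀ → ZMod (3 ^ k), Corresponds ζ x.2 a →
      (∃ (T : Pts QBar) (h : (E.baseChange QBar).toAffine.Nonsingular 0 0),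
        T = .some 0 0 h ∧ pointsK a = {0, fun _ => T, fun _ => -T}) ∧
      ∀ (f : GalK i₀ → ZMod (3 ^ k) → Pts QBar) (n : ℕ), IsCocycle a f → LocallyTrivial a f →
        IsCoboundary a (fun σ => (3 ^ n) • f σ) → IsCoboundary a f

/-- The number of the data with the property `P` and with `N(π 1 ⋯ π m) ≤ X`. -/
noncomputable def count {m : ℕ} (P : Datum m → Prop) (X : ℕ) : ℕ :=
  Nat.card {x : Datum m // P x ∧ ∏ j, nrm (x.1 j) ≤ X}

/-- At least `δ Y / log Y` of the prime numbers up to `Y` are norms of primes of `S` as above that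
are not `1` modulo `9`. -/
def IsDense (k : ℕ) (S : Set Eis) : Prop :=
  ∃ (δ : ℝ) (Y₀ : ℕ), 0 < δ ∧ ∀ Y : ℕ, Y₀ ≤ Y → δ * (Y / Real.log Y) ≤
    (Nat.card {p : ℕ // p ≤ Y ∧ ∃ π ∈ S, IsSplitPrime k π ∧ ¬ (9 : Eis) ∣ π - 1 ∧
      nrm π = (p : ℤ)} : ℝ)

section proof

open Pool.Agent.V11291.EK (Bs P1 Dta TupE mem_TupE NB GB NB_low NB_up NB_law' eb eb_ne exists_eb
  Wb GdT TB card_data cub_iff Cub)
open Pool.Agent.Y699.E (nrm_cast)

/-- the condition on the primes -/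
def AS (k : ℕ) (S : Set Eis) (π : Eis) : Prop :=
  3 ^ (k + 1) ∣ Pool.Agent.Y699.E.nrm π - 1 ∧ π ∈ S

theorem nrm_eq (π : Eis) : ((Pool.Agent.Y699.E.nrm π : ℕ) : ℤ) = nrm π := nrm_cast π

theorem dvd_iff {k : ℕ} {π : Eis} (h : 1 ≤ Pool.Agent.Y699.E.nrm π) :
    3 ^ (k + 1) ∣ Pool.Agent.Y699.E.nrm π - 1 ↔ (3 : ℤ) ^ (k + 1) ∣ nrm π - 1 := by
  rw [← nrm_eq, ← Int.natCast_dvd_natCast]
  push_cast [h]
  rfl

theorem bs_iff {k : ℕ} {S : Set Eis} {π : Eis} :
    Bs (AS k S) π ↔ IsSplitPrime k π ∧ π ∈ S := by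
  constructor
  · rintro ⟨⟨h1, h2⟩, h3, h4⟩
    exact ⟨⟨h1.prime, h1.three, h2, (dvd_iff h2.one_lt.le).1 h3⟩, h4⟩
  · rintro ⟨⟨h1, h2, h3, h4⟩, h5⟩
    have h3' : (Pool.Agent.Y699.E.nrm π).Prime := h3
    exact ⟨⟨⟨h1, h2⟩, h3'⟩, (dvd_iff h3'.one_lt.le).2 h4, h5⟩

theorem dn_iff {k : ℕ} {S : Set Eis} (h : IsDense k S) : Pool.Agent.V11291.FK.Dn fun p =>
    ∃ π, (Bs (AS k S) π ∧ ¬ (9 : Eis) ∣ π - 1) ∧ Pool.Agent.Y699.E.nrm π = p := by
  obtain ⟨δ, Y₀, hδ, h1⟩ := h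
  refine ⟨δ, Y₀, hδ, fun Y hY => (h1 Y hY).trans (le_of_eq ?_)⟩
  congr 1
  rw [← Nat.subtype_card]
  intro p
  rw [Finset.mem_filter, Finset.mem_range, Nat.lt_succ_iff]
  refine and_congr_right fun _ => ?_
  constructor
  · rintro ⟨π, ⟨h2, h3⟩, h4⟩
    rw [bs_iff] at h2
    exact ⟨π, h2.2, h2.1, h3, by rw [← nrm_eq, h4]⟩
  · rintro ⟨π, h2, h3, h4, h5⟩
    refine ⟨π, ⟨bs_iff.2 ⟨h3, h2⟩, h4⟩, ?_⟩
    rw [← nrm_eq] at h5
    exact_mod_cast h5

theorem dense_univ (k : ℕ) : IsDense k Set.univ := by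
  obtain ⟨δ, Y₀, hδ, h1⟩ := Pool.Agent.V11291.EK.De.dn_pi k
  refine ⟨δ, Y₀, hδ, fun Y hY => (h1 Y hY).trans (le_of_eq ?_)⟩
  congr 1
  rw [← Nat.subtype_card]
  intro p
  rw [Finset.mem_filter, Finset.mem_range, Nat.lt_succ_iff]
  refine and_congr_right fun _ => ?_
  constructor
  · rintro ⟨π, ⟨⟨h2, h3⟩, h4⟩, h5⟩
    have h6 := (bs_iff (k := k) (S := Set.univ) (π := π)).1 ⟨h2, h3, Set.mem_univ _⟩
    exact ⟨π, Set.mem_univ _, h6.1, h4, by rw [← nrm_eq, h5]⟩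
  · rintro ⟨π, h2, h3, h4, h5⟩
    have h6 := (bs_iff (k := k) (S := Set.univ) (π := π)).2 ⟨h3, h2⟩
    refine ⟨π, ⟨⟨h6.1, h6.2.1⟩, h4⟩, ?_⟩
    rw [← nrm_eq] at h5
    exact_mod_cast h5

variable {k m : ℕ} {S : Set Eis}

/-- the tuples -/
noncomputable def Tp (m k : ℕ) (S : Set Eis) (X : ℕ) : Finset (Fin m → Eis) :=
  TupE (fun _ => Bs (AS k S)) X

theorem mem_Tp {X : ℕ} {p : Fin m → Eis} : p ∈ Tp m k S X ↔
    (∀ j, IsSplitPrime k (p j) ∧ p j ∈ S) ∧ (Function.Injective fun j => nrm (p j)) ∧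
      ∏ j, nrm (p j) ≤ X := by
  unfold Tp
  rw [mem_TupE fun i π h => h.1]
  have h1 : (Function.Injective fun j => Pool.Agent.Y699.E.nrm (p j)) ↔
      Function.Injective fun j => nrm (p j) := by
    have e : (fun j => nrm (p j)) = (fun n : ℕ => (n : ℤ)) ∘ fun j => Pool.Agent.Y699.E.nrm (p j) :=
      funext fun j => (nrm_eq _).symm
    rw [e]
    constructor
    · exact fun h => Nat.cast_injective.comp h
    · exact fun h => h.of_comp
  have h2 : ∏ j, Pool.Agent.Y699.E.nrm (p j) ≤ X ↔ ∏ j, nrm (p j) ≤ (X : ℤ) := by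
    rw [← Nat.cast_le (α := ℤ), Nat.cast_prod]
    simp only [nrm_eq]
  rw [h1, h2]
  refine and_congr_left fun _ => ?_
  exact forall_congr' fun j => bs_iff

theorem hT (X : ℕ) : ∀ p ∈ Tp m k S X, ∀ j, Prime (p j) ∧
    (3 : ℤ) ^ (k + 1) ∣ Pool.Agent.Y692.QS.nr (p j) - 1 := by
  intro p hp j
  have h := ((mem_Tp.1 hp).1 j).1
  exact ⟨h.1, h.2.2.2⟩

theorem family_iff {X : ℕ} {x : Datum m} : (InFamily S k x ∧ ∏ j, nrm (x.1 j) ≤ X) ↔
    x.1 ∈ Tp m k S X ∧ (∀ j, orderOf (x.2 j) = 3 ^ k) ∧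
      ∀ e, (∀ j, Pool.Agent.V11291.EK.Chr.Ty k (x.2 j) (e j)) → Wb e x.1 := by
  rw [mem_Tp]
  constructor
  · rintro ⟨⟨h1, h2, h3, h4⟩, h5⟩
    exact ⟨⟨h1, h2, h5⟩, h3, h4⟩
  · rintro ⟨⟨h1, h2, h5⟩, h3, h4⟩
    exact ⟨⟨h1, h2, h3, h4⟩, h5⟩

/-- the type -/
theorem type_ne (hk : 1 ≤ k) {x : Datum m} (h : InFamily S k x) {e : Fin m → ZMod 3}
    (he : HasType k x e) (j : Fin m) : e j ≠ 0 := by
  have h1 := h.prime j
  have h9 : (9 : ℤ) ∣ Pool.Agent.Y692.QS.nr (x.1 j) - 1 := by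
    refine dvd_trans ?_ h1.1.2.2.2
    have : (9 : ℤ) = 3 ^ 2 := by norm_num
    rw [this]
    exact pow_dvd_pow 3 (by omega)
  obtain ⟨c, hc, hc'⟩ := Pool.Agent.V11291.EK.Chr.exists_ty h1.1.1 h9 hk (h.order j)
  have := Pool.Agent.V11291.EK.Chr.ty_uniq h1.1.1 h9 hc' (he j)
  rw [← this]
  exact hc

theorem connected_iff (hk : 1 ≤ k) {x : Datum m} (h : InFamily S k x) : IsConnected k x ↔
    ∀ e, (∀ j, Pool.Agent.V11291.EK.Chr.Ty k (x.2 j) (e j)) → GdT e x.1 := by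
  have h1 : ∀ e, (∀ j, Pool.Agent.V11291.EK.Chr.Ty k (x.2 j) (e j)) →
      (Cub x.1 e ↔ GdT e x.1) := fun e he =>
    cub_iff (fun j => ⟨(h.prime j).1.1, (h.prime j).1.2.1⟩) h.distinct (type_ne hk h he)
  constructor
  · intro h2 e he
    exact (h1 e he).1 fun v hv => h2 e v he hv
  · intro h2 e v he hv
    exact (h1 e he).2 (h2 e he) v hv

theorem count_family (hk : 1 ≤ k) (X : ℕ) :
    count (m := m) (InFamily S k) X = NB (Fin m) (AS k S) X * (3 ^ (k - 1)) ^ m := by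
  have h1 := card_data hk (Tp m k S X) (hT X) fun e p => Wb e p
  unfold count
  rw [Nat.card_congr (Equiv.subtypeEquivRight fun x => family_iff (S := S) (k := k) (X := X)
    (x := x))]
  refine h1.trans ?_
  rfl

theorem count_connected (hk : 1 ≤ k) (X : ℕ) :
    count (m := m) (fun x => InFamily S k x ∧ IsConnected k x) X =
      GB (Fin m) (AS k S) X * (3 ^ (k - 1)) ^ m := by
  have h1 := card_data hk (Tp m k S X) (hT X) fun e p => Wb e p ∧ GdT e p
  have h2 : ∀ x : Datum m, ((InFamily S k x ∧ IsConnected k x) ∧ ∏ j, nrm (x.1 j) ≤ X) ↔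
      x.1 ∈ Tp m k S X ∧ (∀ j, orderOf (x.2 j) = 3 ^ k) ∧
      ∀ e, (∀ j, Pool.Agent.V11291.EK.Chr.Ty k (x.2 j) (e j)) → Wb e x.1 ∧ GdT e x.1 := by
    intro x
    constructor
    · rintro ⟨⟨h3, h4⟩, h5⟩
      obtain ⟨h6, h7, h8⟩ := family_iff.1 ⟨h3, h5⟩
      exact ⟨h6, h7, fun e he => ⟨h8 e he, (connected_iff hk h3).1 h4 e he⟩⟩
    · rintro ⟨h3, h4, h5⟩
      obtain ⟨h6, h7⟩ := family_iff.2 ⟨h3, h4, fun e he => (h5 e he).1⟩
      exact ⟨⟨h6, (connected_iff hk h6).2 fun e he => (h5 e he).2⟩, h7⟩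
  unfold count
  rw [Nat.card_congr (Equiv.subtypeEquivRight h2)]
  refine h1.trans ?_
  unfold GB
  congr 1
  refine Finset.sum_congr rfl fun b _ => ?_
  unfold TB Tp
  rw [Finset.filter_filter]
  congr 1
  ext p
  simp only [Finset.mem_filter]

/-- the connected members are good -/
theorem good_of_connected (hk : 2 ≤ k) {x : Datum m} (h : InFamily S k x)
    (hc : IsConnected k x) : BSDThree k x := by
  intro ζ hζ
  have hk1 : 1 ≤ k := by omega
  have h9 : ∀ j, (9 : ℤ) ∣ Pool.Agent.Y692.QS.nr (x.1 j) - 1 := by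
    intro j
    refine dvd_trans ?_ (h.prime j).1.2.2.2
    have : (9 : ℤ) = 3 ^ 2 := by norm_num
    rw [this]
    exact pow_dvd_pow 3 (by omega)
  choose e he hty using fun j =>
    Pool.Agent.V11291.EK.Chr.exists_ty (h.prime j).1.1 (h9 j) hk1 (h.order j)
  have hinj : Function.Injective x.1 := by
    intro i j hij
    apply h.distinct
    show nrm (x.1 i) = nrm (x.1 j)
    rw [hij]
  exact Pool.Agent.V11291.EK.MK.mainK k m hk x.1 (fun j => (h.prime j).1.1) hinj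
    (fun j => (h.prime j).1.2.1) (fun j => (h.prime j).1.2.2.2) x.2 h.order e hty
    (Pool.Agent.V11291.EK.ker_of_gd he ((connected_iff hk1 h).1 hc e hty)) (h.nine e hty) ζ hζ

theorem sp_eq (m : ℕ) (hm : 1 ≤ m) : Pool.Agent.Y85.XK.sp (m - 1) =
    ∏ i ∈ Finset.range (m / 2), (1 - 1 / 3 ^ (2 * i + 1) : ℝ) := by
  unfold Pool.Agent.Y85.XK.sp
  rw [Nat.sub_add_cancel hm]
  refine Finset.prod_congr rfl fun i _ => ?_
  rw [one_div, one_div, inv_pow]

end proof

/-- **The number of the members, the proportion of the connected ones, and the Birch and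
Swinnerton-Dyer formula at `3` for them.** -/
theorem result (k m : ℕ) (hk : 2 ≤ k) (hm : 1 ≤ m) :
    -- the connected members
    (∀ x : Datum m, InFamily Set.univ k x → IsConnected k x → BSDThree k x) ∧
    -- the set of all primes is dense
    IsDense k Set.univ ∧
    ∀ S : Set Eis, IsDense k S →
      -- the number of the members
      (∃ (c C : ℝ) (X₀ : ℕ), 0 < c ∧ 0 < C ∧ ∀ X : ℕ, X₀ ≤ X →
        c * (X * Real.log (Real.log X) ^ (m - 1) / Real.log X) ≤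
          (count (m := m) (InFamily S k) X : ℝ) ∧
        (count (m := m) (InFamily S k) X : ℝ) ≤
          C * (X * Real.log (Real.log X) ^ (m - 1) / Real.log X)) ∧
      -- the proportion of the connected ones
      Tendsto (fun X : ℕ => (count (m := m) (fun x => InFamily S k x ∧ IsConnected k x) X : ℝ) /
        (count (m := m) (InFamily S k) X : ℝ)) atTop
        (𝓝 (∏ i ∈ Finset.range (m / 2), (1 - 1 / 3 ^ (2 * i + 1) : ℝ))) ∧
      -- the proportion of the good ones is at least this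
      ∀ ε : ℝ, 0 < ε → ∃ X₀ : ℕ, ∀ X : ℕ, X₀ ≤ X →
        (∏ i ∈ Finset.range (m / 2), (1 - 1 / 3 ^ (2 * i + 1) : ℝ) - ε) *
          (count (m := m) (InFamily S k) X : ℝ) ≤
          (count (m := m) (fun x => InFamily S k x ∧ BSDThree k x) X : ℝ) := by
  have hk1 : 1 ≤ k := by omega
  refine ⟨fun x h hc => good_of_connected hk h hc, dense_univ k, fun S hS => ?_⟩
  have hD := dn_iff hS
  have ks : Fin m := ⟨0, hm⟩
  have hw : (0 : ℝ) < ((3 ^ (k - 1)) ^ m : ℕ) := by positivity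
  obtain ⟨c, X₀, hc, hlow⟩ := Pool.Agent.V11291.EK.NB_low ks hD
  rw [Fintype.card_fin] at hlow
  obtain ⟨C, X₁, hC, hup⟩ := Pool.Agent.V11291.EK.NB_up (ι := Fin m) (n := m - 1)
    (by rw [Fintype.card_fin]; omega) (AS k S)
  have hlaw := Pool.Agent.V11291.EK.NB_law' hm hD
  have hT2 : Tendsto (fun X : ℕ =>
      (count (m := m) (fun x => InFamily S k x ∧ IsConnected k x) X : ℝ) /
        (count (m := m) (InFamily S k) X : ℝ)) atTop
        (𝓝 (∏ i ∈ Finset.range (m / 2), (1 - 1 / 3 ^ (2 * i + 1) : ℝ))) := by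
    rw [← sp_eq m hm]
    refine hlaw.congr fun X => ?_
    rw [count_connected hk1, count_family hk1, Nat.cast_mul, Nat.cast_mul,
      mul_div_mul_right _ _ hw.ne']
  refine ⟨⟨c * ((3 ^ (k - 1)) ^ m : ℕ), C * ((3 ^ (k - 1)) ^ m : ℕ), max X₀ X₁, by positivity,
    by positivity, fun X hX => ?_⟩, hT2, fun ε hε => ?_⟩
  · have h1 := hlow X ((le_max_left _ _).trans hX)
    have h2 := hup X ((le_max_right _ _).trans hX)
    rw [count_family hk1, Nat.cast_mul]
    constructor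
    · calc c * ((3 ^ (k - 1)) ^ m : ℕ) * (X * Real.log (Real.log X) ^ (m - 1) / Real.log X)
          = c * (X * Real.log (Real.log X) ^ (m - 1) / Real.log X) * ((3 ^ (k - 1)) ^ m : ℕ) := by
            ring
        _ ≤ _ := mul_le_mul_of_nonneg_right h1 hw.le
    · calc (Pool.Agent.V11291.EK.NB (Fin m) (AS k S) X : ℝ) * ((3 ^ (k - 1)) ^ m : ℕ)
          ≤ C * (X * Real.log (Real.log X) ^ (m - 1) / Real.log X) * ((3 ^ (k - 1)) ^ m : ℕ) :=
            mul_le_mul_of_nonneg_right h2 hw.le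
        _ = _ := by ring
  · have h3 := Pool.Agent.V11291.EK.pos_of_low (Pool.Agent.V11291.EK.NB_low ks hD)
    have h4 := hT2.eventually (lt_mem_nhds (sub_lt_self _ hε))
    obtain ⟨X₂, h5⟩ := eventually_atTop.1 (h3.and h4)
    refine ⟨X₂, fun X hX => ?_⟩
    obtain ⟨h6, h7⟩ := h5 X hX
    have hpos : 0 < count (m := m) (InFamily S k) X := by
      rw [count_family hk1]
      have h8 : 0 < Pool.Agent.V11291.EK.NB (Fin m) (AS k S) X := by exact_mod_cast h6
      positivity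
    have hpos' : (0 : ℝ) < (count (m := m) (InFamily S k) X : ℝ) := by exact_mod_cast hpos
    rw [lt_div_iff₀ hpos'] at h7
    refine h7.le.trans ?_
    have hfin : Finite {x : Datum m // InFamily S k x ∧ ∏ j, nrm (x.1 j) ≤ X} :=
      Nat.finite_of_card_ne_zero hpos.ne'
    have hfin' : Finite {x : Datum m //
        (InFamily S k x ∧ BSDThree k x) ∧ ∏ j, nrm (x.1 j) ≤ X} := by
      refine Finite.of_injective (fun x => (⟨x.1, x.2.1.1, x.2.2⟩ :
        {x : Datum m // InFamily S k x ∧ ∏ j, nrm (x.1 j) ≤ X})) ?_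
      intro x y h
      exact Subtype.ext (Subtype.mk.inj h)
    have h8 : count (m := m) (fun x => InFamily S k x ∧ IsConnected k x) X ≤
        count (m := m) (fun x => InFamily S k x ∧ BSDThree k x) X := by
      unfold count
      refine Nat.card_le_card_of_injective (fun x => (⟨x.1, ⟨x.2.1.1,
        good_of_connected hk x.2.1.1 x.2.1.2⟩, x.2.2⟩ :
        {x : Datum m // (InFamily S k x ∧ BSDThree k x) ∧ ∏ j, nrm (x.1 j) ≤ X})) ?_
      intro x y h
      exact Subtype.ext (Subtype.mk.inj h)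
    exact_mod_cast h8

end Pool.Agent.Results.MP_dfae13_nt.ThreePartTwistsProportion
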